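import Pool.Agent.H777R3.IA

/-!
# The graded Lie ring of the lower central series of `IA_3` is not quadratically presented

`IA_3` is the group of automorphisms of the free group of rank three that are trivial on the
abelianization, `E_0^*(IA_3)` the graded Lie ring of its lower central series. We show that
`E_0^*(IA_3)` is not isomorphic, as a graded Lie ring, to a quotient of the free Lie ring `L[V]` on
its degree-one part by a Lie ideal generated by elements of degree two: with `K_{12}, K_{13}` the
partial conjugations of `x_1` by `x_2` and `x_3` and `K_{123} : x_1 ↦ x_1 [x_2, x_3]` the cubic
relation `[[K_{12}, K_{13}], K_{123}] = 0` does not follow from quadratic ones. This answers the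
second question in the negative.
-/

set_option autoImplicit false

namespace Pool.Agent.Results.MP_df4ecf_al.IAThreeNotQuadratic

open Pool.Agent.H777R3.FreeLie Pool.Agent.H777R3.IAut

/-- `E_0^*(IA_3)` is not a free Lie algebra modulo quadratic relations. -/
theorem result : ¬ FreeModQuadratic (IA 3) := main

end Pool.Agent.Results.MP_df4ecf_al.IAThreeNotQuadratic
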